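import Pool.Agent.Helper292.ForceCH

/-!
# A separable Fréchet-Urysohn `C_p(X)` which is not hereditarily separable

Under the continuum hypothesis there is a family `x_α`, `α < ω₁`, of infinite subsets of `ω`,
decreasing modulo finite sets, such that the gaps of `x_β` are not dominated by the `α`-th function
of an enumeration of `ω^ω`, for all `α < β`. The space `X` consists of the finite subsets of `ω`,
with their neighbourhoods in the Cantor topology, and the isolated points `x_α`.

`C_p(X)` is Fréchet-Urysohn by a variant of the argument of Galvin and Miller, and it is separable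
since `X` has a weaker separable metrizable topology. The characteristic functions of the isolated
points form an uncountable discrete subspace of `C_p(X)`.
-/

set_option autoImplicit false

open Set

namespace Pool.Agent.Results.MP_dfc365_gt.SeparableFrechet

/-- `C_p(X)`: the continuous real-valued functions on `X`, as a subspace of the product
`X → ℝ`. -/
abbrev Cp (X : Type) [TopologicalSpace X] : Type := {f : X → ℝ // Continuous f}

/-- `Y` is hereditarily separable: every subspace of `Y` is separable. -/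
def HereditarilySeparable (Y : Type) [TopologicalSpace Y] : Prop :=
  ∀ S : Set Y, TopologicalSpace.SeparableSpace S

/-! ### The first uncountable ordinal -/

/-- The first uncountable ordinal, as a well-ordered type. -/
abbrev I : Type := (Cardinal.aleph 1).ord.ToType

theorem countable_Iio (a : I) : (Iio a).Countable := by
  have h : Cardinal.mk (Iio a) < Cardinal.aleph 1 := by
    have := Cardinal.mk_Iio_lt a (by simp)
    simpa using this
  rw [← Cardinal.le_aleph0_iff_set_countable]
  exact Order.lt_succ_iff.1 (h.trans_eq Cardinal.succ_aleph0.symm)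

theorem uncountable_I : ¬ (univ : Set I).Countable := by
  rw [← Cardinal.le_aleph0_iff_set_countable, Cardinal.mk_univ]
  simp only [Cardinal.mk_toType, Cardinal.card_ord, not_le]
  exact Cardinal.aleph0_lt_aleph_one

theorem exists_bound {A : Set I} (hA : A.Countable) : ∃ b, ∀ a ∈ A, a < b := by
  by_contra! h
  refine uncountable_I ((hA.biUnion fun a _ =>
    (countable_Iio a).union (countable_singleton a)).mono fun b _ => ?_)
  obtain ⟨a, ha, hab⟩ := h b
  refine mem_biUnion ha ?_
  rcases hab.lt_or_eq with h | h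
  · exact Or.inl h
  · exact Or.inr h

instance : Nonempty I := by
  obtain ⟨b, _⟩ := exists_bound (countable_empty)
  exact ⟨b⟩

/-- The sequence `f` is strictly increasing with supremum `δ`. -/
def SeqLim (f : ℕ → I) (δ : I) : Prop := StrictMono f ∧ IsLUB (range f) δ

theorem SeqLim.lt {f : ℕ → I} {δ : I} (h : SeqLim f δ) (n : ℕ) : f n < δ :=
  (h.1 (Nat.lt_succ_self n)).trans_le (h.2.1 (mem_range_self _))

theorem SeqLim.exists_lt {f : ℕ → I} {δ : I} (h : SeqLim f δ) {a : I} (ha : a < δ) :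
    ∃ n, a < f n := by
  by_contra! h'
  exact absurd (h.2.2 (show a ∈ upperBounds (range f) by rintro _ ⟨n, rfl⟩; exact h' n))
    (not_le.2 ha)

theorem exists_seqLim (g : I → I) (hg : ∀ a, a < g a) (γ : I) :
    ∃ (f : ℕ → I) (δ : I), γ < δ ∧ SeqLim f δ ∧ ∀ n, g (f n) = f (n + 1) := by
  have hf : StrictMono (fun n : ℕ => g^[n] γ) := by
    refine strictMono_nat_of_lt_succ fun n => ?_
    rw [Function.iterate_succ_apply']
    exact hg _
  have hb : ∃ b, b ∈ upperBounds (range fun n : ℕ => g^[n] γ) := by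
    obtain ⟨b, hb⟩ := exists_bound (countable_range fun n : ℕ => g^[n] γ)
    exact ⟨b, fun a ha => (hb a ha).le⟩
  have hl : IsLUB (range fun n : ℕ => g^[n] γ)
      (WellFounded.min wellFounded_lt (upperBounds (range fun n : ℕ => g^[n] γ)) hb) := by
    refine ⟨WellFounded.min_mem _ _ _, fun b hb' => ?_⟩
    exact not_lt.1 (WellFounded.not_lt_min _ _ hb')
  have hs : SeqLim _ _ := ⟨hf, hl⟩
  refine ⟨_, _, ?_, hs, fun n => (Function.iterate_succ_apply' g n γ).symm⟩
  exact hs.lt 0

/-! ### The tower -/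

/-- The gaps of `y` are not dominated by `g`. -/
def Gap (g : ℕ → ℕ) (y : Set ℕ) : Prop := ∀ N, ∃ m ∈ y, N ≤ m ∧ ∀ j ∈ y, m < j → g m < j

theorem Gap.mono {g h : ℕ → ℕ} {y : Set ℕ} (hy : Gap h y) (hgh : ∀ m, g m ≤ h m) : Gap g y := by
  intro N
  obtain ⟨m, hm, hN, h1⟩ := hy N
  exact ⟨m, hm, hN, fun j hj hmj => (hgh m).trans_lt (h1 j hj hmj)⟩

theorem stage {A : Set I} (hA : A.Countable) (S : I → Set ℕ) (g : I → ℕ → ℕ)
    (hS : ∀ B ⊆ A, B.Finite → (⋂ α ∈ B, S α).Infinite) :
    ∃ y : Set ℕ, y.Infinite ∧ ∀ α ∈ A, (y \ S α).Finite ∧ Gap (g α) y := by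
  obtain ⟨r, hr⟩ := countable_iff_exists_injOn.1 hA
  let B : ℕ → Set I := fun n => {α | α ∈ A ∧ r α ≤ n}
  have hBA : ∀ n, B n ⊆ A := fun n α hα => hα.1
  have hB : ∀ n, (B n).Finite := by
    intro n
    refine Set.Finite.of_finite_image ((Set.finite_Iic n).subset ?_) (hr.mono (hBA n))
    rintro _ ⟨α, hα, rfl⟩
    exact hα.2
  have hp : ∀ n b : ℕ, ∃ k ∈ ⋂ α ∈ B n, S α, b < k := fun n b =>
    (hS (B n) (hBA n) (hB n)).exists_gt b
  have hbd : ∀ n k : ℕ, ∃ b, k ≤ b ∧ ∀ α ∈ B n, g α k ≤ b := by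
    intro n k
    obtain ⟨b, hb⟩ := ((hB n).image fun α => g α k).bddAbove
    exact ⟨max k b, le_max_left _ _, fun α hα =>
      (hb (mem_image_of_mem _ hα)).trans (le_max_right _ _)⟩
  choose p hp1 hp2 using hp
  choose bd hbd1 hbd2 using hbd
  let k : ℕ → ℕ := fun n => Nat.rec (p 0 0) (fun n x => p (n + 1) (bd n x)) n
  have hks : ∀ n, k (n + 1) = p (n + 1) (bd n (k n)) := fun n => rfl
  have hk1 : ∀ n, k n ∈ ⋂ α ∈ B n, S α := by
    intro n
    cases n with
    | zero => exact hp1 0 0
    | succ n => exact hp1 (n + 1) _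
  have hk2 : ∀ n, bd n (k n) < k (n + 1) := fun n => hp2 (n + 1) _
  have hk3 : StrictMono k := strictMono_nat_of_lt_succ fun n => (hbd1 n (k n)).trans_lt (hk2 n)
  refine ⟨range k, infinite_range_of_injective hk3.injective, fun α hα => ⟨?_, ?_⟩⟩
  · refine ((Set.finite_Iio (r α)).image k).subset ?_
    rintro _ ⟨⟨n, rfl⟩, hn⟩
    refine ⟨n, ?_, rfl⟩
    by_contra h
    exact hn (mem_iInter₂.1 (hk1 n) α ⟨hα, not_lt.1 h⟩)
  · intro N
    refine ⟨k (max (r α) N), mem_range_self _, (le_max_right _ _).trans (hk3.id_le _), ?_⟩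
    rintro _ ⟨n', rfl⟩ hn'
    have h1 : max (r α) N + 1 ≤ n' := hk3.lt_iff_lt.1 hn'
    have h2 := hbd2 (max (r α) N) (k (max (r α) N)) α ⟨hα, le_max_left _ _⟩
    exact h2.trans_lt ((hk2 _).trans_le (hk3.monotone h1))

/-- The next element of `s` after `m`. -/
noncomputable def nxt (s : Set ℕ) (m : ℕ) : ℕ := sInf {j | j ∈ s ∧ m < j}

theorem nxt_mem {s : Set ℕ} (hs : s.Infinite) (m : ℕ) : nxt s m ∈ s ∧ m < nxt s m := by
  have : {j | j ∈ s ∧ m < j}.Nonempty := by
    obtain ⟨j, hj, h⟩ := hs.exists_gt m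
    exact ⟨j, hj, h⟩
  exact Nat.sInf_mem this

/-- The requirement on `y` at the stage `β`, given the sets `p α`, `α < β`. -/
def Req (e : I → ℕ → ℕ) (β : I) (p : ∀ α, α < β → Set ℕ) (y : Set ℕ) : Prop :=
  y.Infinite ∧ ∀ α, ∀ h : α < β, (y \ p α h).Finite ∧
    Gap (fun m => max (e α m) (nxt (p α h) m)) y

open Classical in
/-- The recursion step. -/
noncomputable def step (e : I → ℕ → ℕ) (β : I) (p : ∀ α, α < β → Set ℕ) : Set ℕ :=
  if h : ∃ y, Req e β p y then h.choose else ∅

/-- The tower. -/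
noncomputable def tower (e : I → ℕ → ℕ) : I → Set ℕ := wellFounded_lt.fix (step e)

theorem tower_eq (e : I → ℕ → ℕ) (β : I) : tower e β = step e β fun α _ => tower e α :=
  wellFounded_lt.fix_eq (step e) β

theorem tower_req (e : I → ℕ → ℕ) (β : I) : Req e β (fun α _ => tower e α) (tower e β) := by
  induction β using WellFoundedLT.induction with
  | ind β ih =>
    have hex : ∃ y, Req e β (fun α _ => tower e α) y := by
      obtain ⟨y, hy, h⟩ := stage (countable_Iio β) (tower e)
        (fun α m => max (e α m) (nxt (tower e α) m)) (by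
          intro B hB hBf
          rcases B.eq_empty_or_nonempty with h | h
          · rw [h]
            simp only [mem_empty_iff_false, iInter_of_empty, iInter_univ]
            exact infinite_univ
          · obtain ⟨a, ha, hmax⟩ := Set.exists_max_image B id hBf h
            intro hfin
            refine (ih a (hB ha)).1 ((hfin.union (hBf.biUnion (t := fun α => tower e a \ tower e α)
              fun α hα => ?_)).subset ?_)
            · rcases (hmax α hα).lt_or_eq with h1 | h1
              · exact ((ih a (hB ha)).2 α h1).1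
              · have h2 : α = a := h1
                rw [h2, Set.sdiff_self]
                exact Set.finite_empty
            · intro i hi
              by_cases h1 : ∀ α ∈ B, i ∈ tower e α
              · exact Or.inl (mem_iInter₂.2 h1)
              · push Not at h1
                obtain ⟨α, hα, h2⟩ := h1
                exact Or.inr (mem_biUnion hα ⟨hi, h2⟩))
      exact ⟨y, hy, fun α hα => h α hα⟩
    rw [tower_eq]
    unfold step
    rw [dif_pos hex]
    exact hex.choose_spec

theorem tower_infinite (e : I → ℕ → ℕ) (β : I) : (tower e β).Infinite := (tower_req e β).1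

theorem tower_diff (e : I → ℕ → ℕ) {α β : I} (h : α < β) : (tower e β \ tower e α).Finite :=
  ((tower_req e β).2 α h).1

theorem tower_gap (e : I → ℕ → ℕ) {α β : I} (h : α < β) : Gap (e α) (tower e β) :=
  ((tower_req e β).2 α h).2.mono fun _ => le_max_left _ _

theorem tower_ne (e : I → ℕ → ℕ) {α β : I} (h : α < β) : tower e α ≠ tower e β := by
  intro heq
  obtain ⟨m, hm, _, h1⟩ := ((tower_req e β).2 α h).2 0
  obtain ⟨h2, h3⟩ := nxt_mem (tower_infinite e α) m
  have h4 := h1 (nxt (tower e α) m) (heq ▸ h2) h3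
  exact absurd ((le_max_right _ _).trans_lt h4) (lt_irrefl _)

theorem tower_injective (e : I → ℕ → ℕ) : Function.Injective (tower e) := by
  intro α β h
  rcases lt_trichotomy α β with h1 | h1 | h1
  · exact absurd h (tower_ne e h1)
  · exact h1
  · exact absurd h.symm (tower_ne e h1)

/-! ### The space -/

section

/-- The points of the space: the finite subsets of `ω` and the points `x_α`. -/
inductive Sp (e : I → ℕ → ℕ) : Type
  | q : Finset ℕ → Sp e
  | p : I → Sp e

open Sp

variable {e : I → ℕ → ℕ}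

/-- The subset of `ω` corresponding to a point. -/
noncomputable def u : Sp e → Set ℕ
  | q s => (s : Set ℕ)
  | p α => tower e α

/-- The Cantor neighbourhood of a finite set. -/
def nb (e : I → ℕ → ℕ) (s : Finset ℕ) (k : ℕ) : Set (Sp e) := {z | ∀ i < k, (i ∈ u z ↔ i ∈ s)}

theorem u_injective : Function.Injective (u : Sp e → Set ℕ) := by
  rintro (s | α) (t | β) h
  · exact congrArg q (Finset.coe_injective h)
  · have h' : (s : Set ℕ) = tower e β := h
    exact absurd (h' ▸ s.finite_toSet) (tower_infinite e β)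
  · have h' : tower e α = (t : Set ℕ) := h
    exact absurd (h'.symm ▸ t.finite_toSet) (tower_infinite e α)
  · exact congrArg p (tower_injective e h)

instance : TopologicalSpace (Sp e) where
  IsOpen W := ∀ s, q s ∈ W → ∃ k, nb e s k ⊆ W
  isOpen_univ := fun _ _ => ⟨0, subset_univ _⟩
  isOpen_inter V W hV hW s hs := by
    obtain ⟨k, hk⟩ := hV s hs.1
    obtain ⟨l, hl⟩ := hW s hs.2
    refine ⟨max k l, fun z hz => ⟨hk fun i hi => ?_, hl fun i hi => ?_⟩⟩
    · exact hz i (hi.trans_le (le_max_left _ _))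
    · exact hz i (hi.trans_le (le_max_right _ _))
  isOpen_sUnion S hS s hs := by
    obtain ⟨W, hW, h⟩ := hs
    obtain ⟨k, hk⟩ := hS W hW s h
    exact ⟨k, hk.trans (subset_sUnion_of_mem hW)⟩

theorem isOpen_sp {W : Set (Sp e)} : IsOpen W ↔ ∀ s, q s ∈ W → ∃ k, nb e s k ⊆ W := Iff.rfl

/-- The points with the trace `t` on `k`. -/
def tr (e : I → ℕ → ℕ) (t : Set ℕ) (k : ℕ) : Set (Sp e) := {z | ∀ i < k, (i ∈ u z ↔ i ∈ t)}

theorem isClopen_tr (t : Set ℕ) (k : ℕ) : IsClopen (tr e t k) := by
  constructor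
  · rw [← isOpen_compl_iff]
    intro s hs
    refine ⟨k, fun z hz hz' => hs fun i hi => ?_⟩
    exact (hz i hi).symm.trans (hz' i hi)
  · intro s hs
    refine ⟨k, fun z hz i hi => ?_⟩
    exact (hz i hi).trans (hs i hi)

theorem isClopen_point (α : I) : IsClopen ({p α} : Set (Sp e)) := by
  constructor
  · rw [← isOpen_compl_iff]
    intro s _
    obtain ⟨i, hi, his⟩ := (tower_infinite e α).exists_notMem_finset s
    refine ⟨i + 1, fun z hz hz' => his ?_⟩
    have h1 : z = p α := hz'
    rw [h1] at hz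
    exact (hz i (Nat.lt_succ_self i)).1 hi
  · intro s hs
    exact absurd hs (by simp)

theorem basis : TopologicalSpace.IsTopologicalBasis {W : Set (Sp e) | IsClopen W} := by
  refine TopologicalSpace.isTopologicalBasis_of_isOpen_of_nhds (fun W hW => hW.2) ?_
  rintro (s | α) W hx hW
  · obtain ⟨k, hk⟩ := hW s hx
    exact ⟨tr e s k, isClopen_tr _ _, fun i _ => Iff.rfl, hk⟩
  · exact ⟨{p α}, isClopen_point α, rfl, singleton_subset_iff.2 hx⟩

theorem exists_sep {y z : Sp e} (h : y ≠ z) : ∃ i, ¬ (i ∈ u y ↔ i ∈ u z) := by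
  by_contra! h'
  exact h (u_injective (Set.ext h'))

instance : T2Space (Sp e) := by
  refine ⟨fun y z hyz => ?_⟩
  obtain ⟨i, hi⟩ := exists_sep hyz
  refine ⟨tr e (u y) (i + 1), tr e (u z) (i + 1), (isClopen_tr _ _).2, (isClopen_tr _ _).2,
    fun _ _ => Iff.rfl, fun _ _ => Iff.rfl, Set.disjoint_left.2 fun w hw hw' => hi ?_⟩
  exact (hw i (Nat.lt_succ_self i)).symm.trans (hw' i (Nat.lt_succ_self i))

instance : CompletelyRegularSpace (Sp e) :=
  CompletelyRegularSpace.of_isTopologicalBasis_clopens basis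

/-! ### Separability -/

/-- The simple functions. -/
noncomputable def simpleFn (d : Σ k : ℕ, (Set (Fin k) → ℚ)) : Cp (Sp e) :=
  ⟨fun z => (d.2 {i | (i : ℕ) ∈ u z} : ℝ), by
    rw [continuous_def]
    intro O _ s hs
    refine ⟨d.1, fun z hz => ?_⟩
    have h1 : {i : Fin d.1 | (i : ℕ) ∈ u z} = {i : Fin d.1 | (i : ℕ) ∈ u (q s : Sp e)} := by
      ext i
      exact hz i i.2
    change (d.2 {i : Fin d.1 | (i : ℕ) ∈ u z} : ℝ) ∈ O
    rw [h1]
    exact hs⟩

theorem exists_level (F : Finset (Sp e)) : ∃ k : ℕ, ∀ y ∈ F, ∀ z ∈ F, y ≠ z →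
    {i : Fin k | (i : ℕ) ∈ u y} ≠ {i : Fin k | (i : ℕ) ∈ u z} := by
  have h : ∀ w : Sp e × Sp e, ∃ i, w.1 ≠ w.2 → ¬ (i ∈ u w.1 ↔ i ∈ u w.2) := by
    intro w
    by_cases hw : w.1 = w.2
    · exact ⟨0, fun h => absurd hw h⟩
    · obtain ⟨i, hi⟩ := exists_sep hw
      exact ⟨i, fun _ => hi⟩
  choose i hi using h
  obtain ⟨b, hb⟩ := ((F ×ˢ F).finite_toSet.image i).bddAbove
  refine ⟨b + 1, fun y hy z hz hyz heq => hi (y, z) hyz ?_⟩
  have h1 : i (y, z) < b + 1 := Nat.lt_succ_of_le (hb ⟨(y, z), by simp [hy, hz], rfl⟩)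
  exact Set.ext_iff.1 heq ⟨i (y, z), h1⟩

theorem denseRange_simpleFn : DenseRange (simpleFn (e := e)) := by
  rw [DenseRange, dense_iff_inter_open]
  rintro O ⟨O', hO', rfl⟩ ⟨f, hf⟩
  obtain ⟨F, V, hV, hsub⟩ := isOpen_pi_iff.1 hO' f.1 hf
  obtain ⟨k, hk⟩ := exists_level F
  have hr : ∀ z : Sp e, ∃ r : ℚ, z ∈ F → (r : ℝ) ∈ V z := by
    intro z
    by_cases hz : z ∈ F
    · obtain ⟨r, hr⟩ := Rat.denseRange_cast.exists_mem_open (hV z hz).1 ⟨f.1 z, (hV z hz).2⟩
      exact ⟨r, fun _ => hr⟩
    · exact ⟨0, fun h => absurd h hz⟩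
  choose r hr using hr
  classical
  let h : Set (Fin k) → ℚ := fun t =>
    if h : ∃ z ∈ F, {i : Fin k | (i : ℕ) ∈ u z} = t then r h.choose else 0
  have hh : ∀ z ∈ F, h {i : Fin k | (i : ℕ) ∈ u z} = r z := by
    intro z hz
    have hex : ∃ z' ∈ F, {i : Fin k | (i : ℕ) ∈ u z'} = {i : Fin k | (i : ℕ) ∈ u z} :=
      ⟨z, hz, rfl⟩
    have h1 : h {i : Fin k | (i : ℕ) ∈ u z} = r hex.choose := by
      simp only [h]
      rw [dif_pos hex]
    rw [h1]
    congr 1
    by_contra h2
    exact hk _ hex.choose_spec.1 z hz h2 hex.choose_spec.2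
  refine ⟨simpleFn ⟨k, h⟩, hsub fun z hz => ?_, mem_range_self _⟩
  change (h {i : Fin k | (i : ℕ) ∈ u z} : ℝ) ∈ V z
  rw [hh z hz]
  exact hr z hz

theorem separable_cp : TopologicalSpace.SeparableSpace (Cp (Sp e)) := by
  have : Countable (Σ k : ℕ, (Set (Fin k) → ℚ)) := inferInstance
  exact ⟨range simpleFn, countable_range _, denseRange_simpleFn⟩

/-! ### The Fréchet-Urysohn property -/

theorem exists_close {A : Set (Cp (Sp e))} {f : Cp (Sp e)} (hf : f ∈ closure A)
    (F : Finset (Sp e)) {ε : ℝ} (hε : 0 < ε) : ∃ a ∈ A, ∀ z ∈ F, |a.1 z - f.1 z| < ε := by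
  have hO : IsOpen {g : Cp (Sp e) | ∀ z ∈ F, |g.1 z - f.1 z| < ε} := by
    have h1 : {g : Cp (Sp e) | ∀ z ∈ F, |g.1 z - f.1 z| < ε} =
        ⋂ z ∈ F, {g : Cp (Sp e) | |g.1 z - f.1 z| < ε} := by
      ext g
      simp
    rw [h1]
    refine isOpen_biInter_finset fun z _ => ?_
    have hc : Continuous fun g : Cp (Sp e) => |g.1 z - f.1 z| :=
      (((continuous_apply z).comp continuous_subtype_val).sub continuous_const).abs
    exact isOpen_lt hc continuous_const
  obtain ⟨a, ha, haA⟩ := mem_closure_iff.1 hf _ hO (by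
    intro z _
    simpa using hε)
  exact ⟨a, haA, ha⟩

theorem exists_fun {A : Set (Cp (Sp e))} {f : Cp (Sp e)} (hf : f ∈ closure A) (n : ℕ)
    (F : Finset (Sp e)) : ∃ h : ℕ → ℕ, ∀ k, ∃ a ∈ A, (∀ z ∈ F, |a.1 z - f.1 z| < 1 / ((n : ℝ) + 1)) ∧
      ∀ z : Sp e, (∀ i, k < i → i ≤ h k → i ∉ u z) → |a.1 z - f.1 z| < 1 / ((n : ℝ) + 1) := by
  classical
  have hε : (0 : ℝ) < 1 / ((n : ℝ) + 1) := by positivity
  have key : ∀ k : ℕ, ∃ l : ℕ, ∃ a ∈ A, (∀ z ∈ F, |a.1 z - f.1 z| < 1 / ((n : ℝ) + 1)) ∧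
      ∀ z : Sp e, (∀ i, k < i → i ≤ l → i ∉ u z) → |a.1 z - f.1 z| < 1 / ((n : ℝ) + 1) := by
    intro k
    let Q : Finset (Finset ℕ) := (Finset.range (k + 1)).powerset
    obtain ⟨a, haA, ha⟩ := exists_close hf (F ∪ Q.image q) hε
    have hopen : IsOpen {z : Sp e | |a.1 z - f.1 z| < 1 / ((n : ℝ) + 1)} :=
      isOpen_lt ((a.2.sub f.2).abs) continuous_const
    have hl : ∀ s : Finset ℕ, ∃ l, s ∈ Q →
        nb e s l ⊆ {z : Sp e | |a.1 z - f.1 z| < 1 / ((n : ℝ) + 1)} := by
      intro s
      by_cases hs : s ∈ Q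
      · obtain ⟨l, hl⟩ := hopen s (ha _ (Finset.mem_union_right _ (Finset.mem_image_of_mem q hs)))
        exact ⟨l, fun _ => hl⟩
      · exact ⟨0, fun h => absurd h hs⟩
    choose l hl using hl
    obtain ⟨b, hb⟩ := (Q.finite_toSet.image l).bddAbove
    refine ⟨b, a, haA, fun z hz => ha z (Finset.mem_union_left _ hz), fun z hz => ?_⟩
    let s : Finset ℕ := (Finset.range (k + 1)).filter fun i => i ∈ u z
    have hsQ : s ∈ Q := Finset.mem_powerset.2 (Finset.filter_subset _ _)
    refine hl s hsQ fun i hi => ?_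
    have hib : i ≤ b := hi.le.trans (hb (mem_image_of_mem l hsQ))
    constructor
    · intro h1
      refine Finset.mem_filter.2 ⟨?_, h1⟩
      by_contra h2
      exact hz i (by simpa using h2) hib h1
    · intro h1
      exact (Finset.mem_filter.1 h1).2
  choose h hh using key
  exact ⟨h, hh⟩

/-- The points available before the stage `γ`. -/
def below (e : I → ℕ → ℕ) (γ : I) : Set (Sp e) := range q ∪ p '' Iio γ

theorem below_countable (γ : I) : (below e γ).Countable :=
  (countable_range _).union ((countable_Iio γ).image _)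

theorem below_mono {γ γ' : I} (h : γ ≤ γ') : below e γ ⊆ below e γ' :=
  Set.union_subset_union_right _ (Set.image_mono (Iio_subset_Iio h))

theorem frechet_cp (he : Function.Surjective e) : FrechetUrysohnSpace (Cp (Sp e)) := by
  refine ⟨fun A f hf => ?_⟩
  choose h hh using fun n F => exists_fun hf n F
  choose j hj using fun n F => he (h n F)
  have hG : ∀ γ : I, ∃ b, γ < b ∧ ∀ n, ∀ F : Finset (Sp e), (F : Set (Sp e)) ⊆ below e γ →
      j n F < b := by
    intro γ
    have hc : {F : Finset (Sp e) | (F : Set (Sp e)) ⊆ below e γ}.Countable := by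
      have h1 : {t : Set (Sp e) | t.Finite ∧ t ⊆ below e γ}.Countable :=
        Set.countable_ofPred_finite_subset (below_countable γ)
      refine (h1.preimage_of_injOn (f := fun F : Finset (Sp e) => (F : Set (Sp e)))
        Finset.coe_injective.injOn).mono fun F hF => ?_
      exact ⟨F.finite_toSet, hF⟩
    obtain ⟨b, hb⟩ := exists_bound ((countable_singleton γ).union
      (countable_iUnion fun n => hc.image (j n)))
    exact ⟨b, hb γ (Or.inl rfl), fun n F hF => hb _ (Or.inr (mem_iUnion.2 ⟨n, F, hF, rfl⟩))⟩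
  choose G hG1 hG2 using hG
  obtain ⟨g, δ, _, hg, hgG⟩ := exists_seqLim G hG1 (Classical.arbitrary I)
  have hδ : ∀ n, ∀ F : Finset (Sp e), (F : Set (Sp e)) ⊆ below e δ → j n F < δ := by
    intro n F hF
    have h1 : ∀ z : Sp e, ∃ m, z ∈ F → z ∈ below e (g m) := by
      intro z
      by_cases hz : z ∈ F
      · rcases hF hz with h2 | ⟨α, hα, h2⟩
        · exact ⟨0, fun _ => Or.inl h2⟩
        · obtain ⟨m, hm⟩ := hg.exists_lt hα
          exact ⟨m, fun _ => Or.inr ⟨α, hm, h2⟩⟩
      · exact ⟨0, fun h => absurd h hz⟩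
    choose m hm using h1
    obtain ⟨N, hN⟩ := (F.finite_toSet.image m).bddAbove
    have h2 : (F : Set (Sp e)) ⊆ below e (g N) := fun z hz =>
      below_mono (hg.1.monotone (hN (mem_image_of_mem m hz))) (hm z hz)
    have h3 := hG2 (g N) n F h2
    rw [hgG] at h3
    exact h3.trans (hg.lt _)
  obtain ⟨z, hz⟩ := (below_countable (e := e) δ).exists_eq_range ⟨q ∅, Or.inl ⟨∅, rfl⟩⟩
  classical
  let Fn : ℕ → Finset (Sp e) := fun n => (Finset.range (n + 1)).image z
  have hFn : ∀ n, (Fn n : Set (Sp e)) ⊆ below e δ := by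
    intro n w hw
    obtain ⟨i, _, rfl⟩ := Finset.mem_image.1 (Finset.mem_coe.1 hw)
    rw [hz]
    exact mem_range_self i
  have hgap : ∀ n, ∃ m ∈ tower e δ, n ≤ m ∧ ∀ i ∈ tower e δ, m < i → h n (Fn n) m < i := by
    intro n
    have := tower_gap e (hδ n (Fn n) (hFn n)) n
    rw [hj] at this
    exact this
  choose m hm1 hm2 hm3 using hgap
  choose a haA ha1 ha2 using fun n => hh n (Fn n) (m n)
  refine ⟨a, haA, ?_⟩
  rw [tendsto_subtype_rng, tendsto_pi_nhds]
  intro w
  have hev : ∀ᶠ n in Filter.atTop, |(a n).1 w - f.1 w| < 1 / ((n : ℝ) + 1) := by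
    by_cases hw : w ∈ below e δ
    · rw [hz] at hw
      obtain ⟨i, rfl⟩ := hw
      filter_upwards [Filter.eventually_ge_atTop i] with n hn
      exact ha1 n _ (Finset.mem_image_of_mem z (Finset.mem_range.2 (Nat.lt_succ_of_le hn)))
    · have hfin : (u w \ tower e δ).Finite := by
        rcases w with s | β
        · exact absurd (Or.inl ⟨s, rfl⟩) hw
        · rcases lt_trichotomy β δ with h1 | h1 | h1
          · exact absurd (Or.inr ⟨β, h1, rfl⟩) hw
          · rw [h1]
            change (tower e δ \ tower e δ).Finite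
            rw [Set.sdiff_self]
            exact Set.finite_empty
          · exact tower_diff e h1
      obtain ⟨M, hM⟩ := hfin.bddAbove
      filter_upwards [Filter.eventually_ge_atTop M] with n hn
      refine ha2 n w fun i h1 h2 h3 => ?_
      by_cases h4 : i ∈ tower e δ
      · exact absurd (hm3 n i h4 h1) (not_lt.2 h2)
      · exact absurd (hM ⟨h3, h4⟩) (not_le.2 (hn.trans_lt ((hm2 n).trans_lt h1)))
  refine tendsto_iff_dist_tendsto_zero.2 (squeeze_zero' (Filter.Eventually.of_forall fun n =>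
    dist_nonneg) ?_ (tendsto_one_div_add_atTop_nhds_zero_nat (𝕜 := ℝ)))
  filter_upwards [hev] with n hn
  rw [Real.dist_eq]
  exact hn.le

/-! ### An uncountable discrete subspace -/

open Classical in
/-- The characteristic function of the isolated point `x_α`. -/
noncomputable def chi (e : I → ℕ → ℕ) (α : I) : Cp (Sp e) :=
  ⟨fun z => if z = p α then 1 else 0, by
    rw [continuous_def]
    intro O _ s hs
    have h0 : (0 : ℝ) ∈ O := by
      have h1 : (if (q s : Sp e) = p α then (1 : ℝ) else 0) ∈ O := hs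
      rw [if_neg (by simp)] at h1
      exact h1
    obtain ⟨k, hk⟩ := (isClopen_point (e := e) α).1.isOpen_compl s (by simp)
    refine ⟨k, fun z hz => ?_⟩
    have hne : ¬ z = p α := fun h => hk hz h
    change (if z = p α then (1 : ℝ) else 0) ∈ O
    rw [if_neg hne]
    exact h0⟩

theorem chi_self (α : I) : (chi e α).1 (p α) = 1 := if_pos rfl

theorem chi_ne {α β : I} (h : α ≠ β) : (chi e β).1 (p α) = 0 :=
  if_neg fun h' => h (Sp.p.inj h')

theorem not_hereditarilySeparable : ¬ HereditarilySeparable (Cp (Sp e)) := by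
  intro h
  obtain ⟨D, hD, hDd⟩ := h (range (chi e))
  let N : Set I := {α | ∃ d ∈ D, (d : Cp (Sp e)) = chi e α}
  have hN : N.Countable := by
    choose! d hd hd' using fun α (hα : α ∈ N) => hα
    refine Set.MapsTo.countable_of_injOn (f := d) (fun α hα => hd α hα) ?_ hD
    intro α hα β hβ hαβ
    have h1 : chi e α = chi e β := by rw [← hd' α hα, ← hd' β hβ, hαβ]
    have h2 := congrFun (congrArg Subtype.val h1) (p α)
    by_contra hne
    rw [chi_self, chi_ne hne] at h2
    exact one_ne_zero h2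
  obtain ⟨α, hα⟩ : ∃ α, α ∉ N := by
    by_contra! h'
    exact uncountable_I (hN.mono fun α _ => h' α)
  have hO : IsOpen {g : range (chi e) | (1 / 2 : ℝ) < g.1.1 (p α)} := by
    have hc : Continuous fun g : range (chi e) => g.1.1 (p α) :=
      (continuous_apply (p α)).comp (continuous_subtype_val.comp continuous_subtype_val)
    exact isOpen_lt continuous_const hc
  obtain ⟨g, hg, hgD⟩ := hDd.inter_open_nonempty _ hO ⟨⟨chi e α, mem_range_self α⟩, by
    change (1 / 2 : ℝ) < (chi e α).1 (p α)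
    rw [chi_self]
    norm_num⟩
  obtain ⟨_, β, rfl⟩ := g
  have h3 : (1 / 2 : ℝ) < (chi e β).1 (p α) := hg
  by_cases h4 : α = β
  · exact hα ⟨_, hgD, by rw [h4]⟩
  · rw [chi_ne h4] at h3
    norm_num at h3

end

/-- Forced form of the consistency of a separable Fréchet-Urysohn `C_p(X)` which is not
hereditarily separable. -/
theorem result :
    (∃ (P : Type) (_ : Preorder P), Nonempty P ∧ ∀ p : P,
      p ∈ Pool.Agent.Helper292.ForceCH.OmegaOnePreserved P ∧
      p ∈ Pool.Agent.Helper292.ForceCH.CHHolds P) ∧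
    (Cardinal.aleph 1 = Cardinal.continuum.{0} →
      ∃ (X : Type) (_ : TopologicalSpace X), T35Space X ∧
        TopologicalSpace.SeparableSpace (Cp X) ∧ FrechetUrysohnSpace (Cp X) ∧
          ¬ HereditarilySeparable (Cp X)) := by
  refine ⟨?_, fun hCH => ?_⟩
  · obtain ⟨P, i, h1, h2⟩ := Pool.Agent.Helper292.ForceCH.exists_forcing
    exact ⟨P, i, h1, fun p => ⟨(h2 p).1, (h2 p).2.2⟩⟩
  · have hcard : Cardinal.mk I = Cardinal.mk (ℕ → ℕ) := by
      simp [hCH]
    obtain ⟨φ⟩ := Cardinal.eq.1 hcard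
    refine ⟨Sp φ, inferInstance, { }, separable_cp, frechet_cp φ.surjective,
      not_hereditarilySeparable⟩

end Pool.Agent.Results.MP_dfc365_gt.SeparableFrechet
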